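import Pool.Agent.H500.ED.Stm
import Pool.Agent.H199.HC.Cls
import Pool.Agent.H500.HC.Loc
import Pool.Agent.H500.MWC

/-!
# Project ED of helper500, part B3: the `ℓ-adic` character of a Hecke character (helper399)
-/

set_option autoImplicit false
set_option linter.unusedSectionVars false

open NumberField IsDedekindDomain Filter Topology

namespace Pool.Agent.H399.ED.AVA

open Pool.Agent.H500.HC (InRay TotPos QBar ZBar jz jz_inj InRay.mono)
open Pool.Agent.Q92.AR (Dv prin Ray Pos Cong prin_apply prin_div val_eq_one)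
open Pool.Agent.W401.Cheb (GK IsFrob IsInert dens)
open Pool.Agent.H500.R2 (UnrOut)
open Pool.Agent.H500.MW (PosUD)

section padic

variable {ℓ : ℕ} [Fact ℓ.Prime]

theorem norm_ell : ‖(ℓ : PadicAlgCl ℓ)‖ = (ℓ : ℝ)⁻¹ := by
  have h1 : (ℓ : PadicAlgCl ℓ) = ((ℓ : ℚ_[ℓ]) : PadicAlgCl ℓ) :=
    (map_natCast (algebraMap ℚ_[ℓ] (PadicAlgCl ℓ)) ℓ).symm
  rw [h1, PadicAlgCl.norm_extends, Padic.norm_p]

theorem norm_le_one {x : PadicAlgCl ℓ} (hx : IsIntegral ℤ x) : ‖x‖ ≤ 1 := by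
  by_contra hlt
  push Not at hlt
  obtain ⟨f, hf, hfx⟩ := hx
  have h0 : f.natDegree ≠ 0 := by
    intro h
    rw [hf.natDegree_eq_zero] at h
    rw [h] at hfx
    simp at hfx
  have h1 : x ^ f.natDegree = -∑ i ∈ Finset.range f.natDegree, (f.coeff i : PadicAlgCl ℓ) * x ^ i := by
    have h2 : Polynomial.eval₂ (algebraMap ℤ (PadicAlgCl ℓ)) x f =
        ∑ i ∈ Finset.range (f.natDegree + 1), (f.coeff i : PadicAlgCl ℓ) * x ^ i := by
      rw [Polynomial.eval₂_eq_sum_range]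
      rfl
    rw [h2, Finset.sum_range_succ, hf.coeff_natDegree] at hfx
    push_cast at hfx
    rw [one_mul] at hfx
    linear_combination hfx
  have h3 : ‖∑ i ∈ Finset.range f.natDegree, (f.coeff i : PadicAlgCl ℓ) * x ^ i‖ ≤
      ‖x‖ ^ (f.natDegree - 1) := by
    refine IsUltrametricDist.norm_sum_le_of_forall_le_of_nonneg (by positivity) fun i hi => ?_
    have hi' := Finset.mem_range.1 hi
    have h4 : ‖(f.coeff i : PadicAlgCl ℓ)‖ ≤ 1 := by
      have h5 : (f.coeff i : PadicAlgCl ℓ) = ((f.coeff i : ℚ_[ℓ]) : PadicAlgCl ℓ) :=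
        (map_intCast (algebraMap ℚ_[ℓ] (PadicAlgCl ℓ)) (f.coeff i)).symm
      rw [h5, PadicAlgCl.norm_extends]
      exact Padic.norm_int_le_one _
    rw [norm_mul, norm_pow]
    calc ‖(f.coeff i : PadicAlgCl ℓ)‖ * ‖x‖ ^ i ≤ 1 * ‖x‖ ^ i := by gcongr
      _ = ‖x‖ ^ i := one_mul _
      _ ≤ ‖x‖ ^ (f.natDegree - 1) := pow_le_pow_right₀ hlt.le (by omega)
  rw [← norm_neg, ← h1, norm_pow] at h3
  have h6 : ‖x‖ ^ (f.natDegree - 1) < ‖x‖ ^ f.natDegree := pow_lt_pow_right₀ hlt (by omega)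
  exact absurd h3 (not_le.2 h6)

variable {F : Type} [Field F] [NumberField F] (κ : F →+* PadicAlgCl ℓ)

theorem norm_k (x : 𝓞 F) : ‖κ (x : F)‖ ≤ 1 := by
  apply norm_le_one
  have h1 : IsIntegral ℤ (x : F) := x.2
  exact h1.map κ.toIntAlgHom

theorem norm_congr {m : ℕ} {x y : 𝓞 F} (h : ((ℓ : 𝓞 F)) ^ m ∣ x - y) :
    ‖κ (x : F) - κ (y : F)‖ ≤ ((ℓ : ℝ)⁻¹) ^ m := by
  obtain ⟨z, hz⟩ := h
  have h1 : κ (x : F) - κ (y : F) = (ℓ : PadicAlgCl ℓ) ^ m * κ (z : F) := by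
    have h2 := congrArg (fun t : 𝓞 F => κ (t : F)) hz
    simp only [map_sub, map_mul, map_pow, map_natCast] at h2
    exact h2
  rw [h1, norm_mul, norm_pow, norm_ell]
  exact mul_le_of_le_one_right (by positivity) (norm_k κ z)

theorem inv_lt_one : ((ℓ : ℝ)⁻¹) < 1 := by
  have h := (Fact.out : ℓ.Prime).one_lt
  have h2 : (1 : ℝ) < ℓ := by exact_mod_cast h
  exact inv_lt_one_of_one_lt₀ h2

theorem inv_pos' : (0 : ℝ) < ((ℓ : ℝ)⁻¹) := by
  have h := (Fact.out : ℓ.Prime).pos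
  positivity

theorem tendsto_inv : Tendsto (fun m : ℕ => ((ℓ : ℝ)⁻¹) ^ m) atTop (𝓝 0) :=
  tendsto_pow_atTop_nhds_zero_of_lt_one inv_pos'.le inv_lt_one

/-- the completion -/
theorem exists_lim (b : ℕ → 𝓞 F) (hb : ∀ m m', m ≤ m' → ((ℓ : 𝓞 F)) ^ m ∣ b m' - b m) :
    ∃ y : PadicAlgCl ℓ, ∀ m, ‖y - κ (b m : F)‖ ≤ ((ℓ : ℝ)⁻¹) ^ m := by
  classical
  let e := Module.finBasis ℚ F
  let E : Submodule ℚ_[ℓ] (PadicAlgCl ℓ) := Submodule.span ℚ_[ℓ] (Set.range fun i => κ (e i))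
  have hE : ∀ x : F, κ x ∈ E := by
    intro x
    rw [← e.sum_repr x, map_sum]
    refine Submodule.sum_mem _ fun i _ => ?_
    have h1 : κ (e.repr x i • e i) = ((e.repr x i : ℚ) : ℚ_[ℓ]) • κ (e i) := by
      rw [Rat.smul_def, map_mul, map_ratCast, Algebra.smul_def, map_ratCast]
    rw [h1]
    exact Submodule.smul_mem _ _ (Submodule.subset_span ⟨i, rfl⟩)
  have hfd : FiniteDimensional ℚ_[ℓ] E := FiniteDimensional.span_of_finite _ (Set.finite_range _)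
  have hc : IsComplete (E : Set (PadicAlgCl ℓ)) := Submodule.complete_of_finiteDimensional E
  have hcs : CauchySeq fun m => κ (b m : F) := by
    rw [Metric.cauchySeq_iff']
    intro ε hε
    obtain ⟨m, hm⟩ := ((tendsto_inv (ℓ := ℓ)).eventually (gt_mem_nhds hε)).exists
    refine ⟨m, fun n hn => ?_⟩
    rw [dist_eq_norm]
    exact (norm_congr κ (hb m n hn)).trans_lt hm
  obtain ⟨y, _, hy⟩ := cauchySeq_tendsto_of_isComplete hc (fun m => hE (b m : F)) hcs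
  refine ⟨y, fun m => ?_⟩
  have h1 : Tendsto (fun n => ‖κ (b n : F) - κ (b m : F)‖) atTop (𝓝 ‖y - κ (b m : F)‖) :=
    (hy.sub_const _).norm
  exact le_of_tendsto h1 (eventually_atTop.2 ⟨m, fun n hn => norm_congr κ (hb m n hn)⟩)

/-- the quotient map -/
noncomputable abbrev mk (ℓ m : ℕ) (F : Type) [Field F] [NumberField F] :
    𝓞 F →+* 𝓞 F ⧸ Ideal.span {((ℓ : 𝓞 F)) ^ m} := Ideal.Quotient.mk _

theorem mk_eq {m : ℕ} {x y : 𝓞 F} : mk ℓ m F x = mk ℓ m F y ↔ ((ℓ : 𝓞 F)) ^ m ∣ x - y := by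
  rw [Ideal.Quotient.mk_eq_mk_iff_sub_mem, Ideal.mem_span_singleton]

/-- the limit of a compatible system of characters -/
theorem limit {G : Type} [Group G] [TopologicalSpace G] [IsTopologicalGroup G]
    (Θ : ∀ m : ℕ, G →* (𝓞 F ⧸ Ideal.span {((ℓ : 𝓞 F)) ^ m})ˣ)
    (hopen : ∀ m, IsOpen ((Θ m).ker : Set G))
    (hcomp : ∀ (g : G) (m m' : ℕ), m ≤ m' → ∀ b : 𝓞 F, mk ℓ m' F b = Θ m' g → mk ℓ m F b = Θ m g) :
    ∃ Ψ : G →* (PadicAlgCl ℓ)ˣ, Continuous (fun g => (Ψ g : PadicAlgCl ℓ)) ∧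
      ∀ (g : G) (b : 𝓞 F), (∀ m, mk ℓ m F b = Θ m g) → (Ψ g : PadicAlgCl ℓ) = κ (b : F) := by
  have hlift : ∀ (g : G) (m : ℕ), ∃ b : 𝓞 F, mk ℓ m F b = Θ m g := fun g m =>
    Ideal.Quotient.mk_surjective _
  -- the value
  have hval : ∀ g : G, ∃ y : PadicAlgCl ℓ, ∀ (m : ℕ) (b : 𝓞 F), mk ℓ m F b = Θ m g →
      ‖y - κ (b : F)‖ ≤ ((ℓ : ℝ)⁻¹) ^ m := by
    intro g
    choose b hb using hlift g
    obtain ⟨y, hy⟩ := exists_lim κ b fun m m' hm => mk_eq.1 (by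
      rw [hcomp g m m' hm (b m') (hb m'), hb m])
    refine ⟨y, fun m b' hb' => ?_⟩
    have h1 : y - κ (b' : F) = (y - κ (b m : F)) + (κ (b m : F) - κ (b' : F)) := by ring
    rw [h1]
    refine (IsUltrametricDist.norm_add_le_max _ _).trans (max_le (hy m) ?_)
    exact norm_congr κ (mk_eq.1 (by rw [hb m, hb']))
  have huniq : ∀ (g : G) (y y' : PadicAlgCl ℓ), (∀ (m : ℕ) (b : 𝓞 F), mk ℓ m F b = Θ m g →
      ‖y - κ (b : F)‖ ≤ ((ℓ : ℝ)⁻¹) ^ m) → (∀ (m : ℕ) (b : 𝓞 F), mk ℓ m F b = Θ m g →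
      ‖y' - κ (b : F)‖ ≤ ((ℓ : ℝ)⁻¹) ^ m) → y = y' := by
    intro g y y' hy hy'
    have h1 : ∀ m : ℕ, ‖y - y'‖ ≤ ((ℓ : ℝ)⁻¹) ^ m := by
      intro m
      obtain ⟨b, hb⟩ := hlift g m
      have h2 : y - y' = (y - κ (b : F)) + (κ (b : F) - y') := by ring
      rw [h2]
      refine (IsUltrametricDist.norm_add_le_max _ _).trans (max_le (hy m b hb) ?_)
      rw [norm_sub_rev]
      exact hy' m b hb
    have h2 : ‖y - y'‖ ≤ 0 := ge_of_tendsto tendsto_inv (Eventually.of_forall h1)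
    exact sub_eq_zero.1 (norm_le_zero_iff.1 h2)
  choose Y hY using hval
  have hle : ∀ g, ‖Y g‖ ≤ 1 := by
    intro g
    obtain ⟨b, hb⟩ := hlift g 0
    have h1 : Y g = (Y g - κ (b : F)) + κ (b : F) := by ring
    rw [h1]
    refine (IsUltrametricDist.norm_add_le_max _ _).trans (max_le ?_ (norm_k κ b))
    have h2 := hY g 0 b hb
    rwa [pow_zero] at h2
  have hpow : ∀ m : ℕ, (0 : ℝ) ≤ ((ℓ : ℝ)⁻¹) ^ m := fun m => (pow_pos inv_pos' m).le
  have hY1 : Y 1 = 1 := by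
    refine huniq 1 _ _ (hY 1) fun m b hb => ?_
    have h1 : (1 : PadicAlgCl ℓ) = κ ((1 : 𝓞 F) : F) := by
      rw [RingOfIntegers.coe_eq_algebraMap, map_one, map_one]
    rw [h1]
    refine norm_congr κ (mk_eq.1 ?_)
    rw [hb, map_one, map_one]
    rfl
  have hYm : ∀ g h, Y (g * h) = Y g * Y h := by
    intro g h
    refine huniq (g * h) _ _ (hY (g * h)) fun m b hb => ?_
    obtain ⟨b1, hb1⟩ := hlift g m
    obtain ⟨b2, hb2⟩ := hlift h m
    have h1 : Y g * Y h - κ (b : F) = ((Y g - κ (b1 : F)) * Y h + κ (b1 : F) * (Y h - κ (b2 : F))) +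
        (κ ((b1 * b2 : 𝓞 F) : F) - κ (b : F)) := by
      rw [RingOfIntegers.coe_eq_algebraMap (b1 * b2), map_mul, map_mul]
      ring
    rw [h1]
    refine (IsUltrametricDist.norm_add_le_max _ _).trans (max_le
      ((IsUltrametricDist.norm_add_le_max _ _).trans (max_le ?_ ?_)) ?_)
    · rw [norm_mul]
      exact (mul_le_of_le_one_right (norm_nonneg _) (hle h)).trans (hY g m b1 hb1)
    · rw [norm_mul]
      exact (mul_le_of_le_one_left (norm_nonneg _) (norm_k κ b1)).trans (hY h m b2 hb2)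
    · refine norm_congr κ (mk_eq.1 ?_)
      rw [map_mul, hb1, hb2, hb, map_mul, Units.val_mul]
  let Ψ0 : G →* PadicAlgCl ℓ := { toFun := Y, map_one' := hY1, map_mul' := hYm }
  refine ⟨Ψ0.toHomUnits, ?_, fun g b hb => ?_⟩
  · have h0 : (fun g => ((Ψ0.toHomUnits g : (PadicAlgCl ℓ)ˣ) : PadicAlgCl ℓ)) = Y := by
      funext g
      rw [MonoidHom.coe_toHomUnits]
      rfl
    rw [h0, continuous_iff_continuousAt]
    intro g
    rw [Metric.continuousAt_iff']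
    intro ε hε
    obtain ⟨m, hm⟩ := ((tendsto_inv (ℓ := ℓ)).eventually (gt_mem_nhds hε)).exists
    have h1 : {g' : G | g⁻¹ * g' ∈ ((Θ m).ker : Set G)} ∈ 𝓝 g := by
      refine IsOpen.mem_nhds ((hopen m).preimage (continuous_const_mul g⁻¹)) ?_
      show g⁻¹ * g ∈ ((Θ m).ker : Set G)
      rw [inv_mul_cancel]
      exact (Θ m).ker.one_mem
    filter_upwards [h1] with g' hg'
    have h2 : Θ m g' = Θ m g := by
      have h3 : Θ m (g⁻¹ * g') = 1 := hg'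
      rw [map_mul, map_inv, inv_mul_eq_one] at h3
      exact h3.symm
    obtain ⟨b, hb⟩ := hlift g m
    rw [dist_eq_norm]
    have h4 : Y g' - Y g = (Y g' - κ (b : F)) + (κ (b : F) - Y g) := by ring
    rw [h4]
    refine lt_of_le_of_lt ((IsUltrametricDist.norm_add_le_max _ _).trans (max_le
      (hY g' m b (by rw [hb, h2])) ?_)) hm
    rw [norm_sub_rev]
    exact hY g m b hb
  · rw [MonoidHom.coe_toHomUnits]
    refine huniq g _ _ (hY g) fun m b' hb' => ?_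
    exact norm_congr κ (mk_eq.1 (by rw [hb m, hb']))

end padic

noncomputable section

section divisors

variable {K : Type} [Field K] [NumberField K]

theorem ideal_ind {P : Ideal (𝓞 K) → Prop} (h1 : P ⊤)
    (h2 : ∀ (v : HeightOneSpectrum (𝓞 K)) (I : Ideal (𝓞 K)), I ≠ ⊥ → P I → P (v.asIdeal * I)) :
    ∀ I : Ideal (𝓞 K), I ≠ ⊥ → P I := by
  intro I
  induction I using UniqueFactorizationMonoid.induction_on_prime with
  | h₁ => intro h; exact absurd rfl h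
  | h₂ x hx =>
    intro _
    rw [Ideal.isUnit_iff.1 hx]
    exact h1
  | h₃ a p ha hp ih =>
    intro _
    exact h2 ⟨p, Ideal.isPrime_of_prime hp, hp.ne_zero⟩ a ha (ih ha)

theorem cop_of_mul {I J 𝔟 : Ideal (𝓞 K)} (h : IsCoprime (I * J) 𝔟) :
    IsCoprime I 𝔟 ∧ IsCoprime J 𝔟 :=
  ⟨h.of_mul_left_left, h.of_mul_left_right⟩

theorem not_le_of_cop {I 𝔟 : Ideal (𝓞 K)} (h : IsCoprime I 𝔟) (v : HeightOneSpectrum (𝓞 K))
    (hb : 𝔟 ≤ v.asIdeal) : ¬ I ≤ v.asIdeal := fun h1 =>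
  v.isPrime.ne_top (top_le_iff.1 ((Ideal.isCoprime_iff_sup_eq.1 h) ▸ sup_le h1 hb))

theorem cop_of_not_le {𝔟 : Ideal (𝓞 K)} (v : HeightOneSpectrum (𝓞 K))
    (hb : ¬ 𝔟 ≤ v.asIdeal) : IsCoprime v.asIdeal 𝔟 := by
  rw [Ideal.isCoprime_iff_sup_eq]
  by_contra h
  exact hb ((v.isMaximal.eq_of_le h le_sup_left).symm ▸ le_sup_right)

variable {G : Type} [CommGroup G]

open scoped Classical in
/-- the homomorphism on divisors -/
def AD (N : ℕ) (A : Ideal (𝓞 K) → G) : Dv K →+ Additive G :=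
  Finsupp.liftAddHom fun v : HeightOneSpectrum (𝓞 K) => (zmultiplesHom (Additive G))
    (if (N : 𝓞 K) ∈ v.asIdeal then 0 else Additive.ofMul (A v.asIdeal))

theorem AD_single {N : ℕ} {A : Ideal (𝓞 K) → G} {v : HeightOneSpectrum (𝓞 K)}
    (hv : (N : 𝓞 K) ∉ v.asIdeal) : AD N A (Finsupp.single v 1) = Additive.ofMul (A v.asIdeal) := by
  unfold AD
  rw [Finsupp.liftAddHom_apply_single, zmultiplesHom_apply, one_smul, if_neg hv]

/-- the properties of the map on ideals -/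
structure RGN (N : ℕ) (A : Ideal (𝓞 K) → G) : Prop where
  one : A ⊤ = 1
  mul : ∀ I J : Ideal (𝓞 K), I ≠ ⊥ → J ≠ ⊥ → IsCoprime I (Ideal.span {(N : 𝓞 K)}) →
    IsCoprime J (Ideal.span {(N : 𝓞 K)}) → A (I * J) = A I * A J
  ray : ∀ x : 𝓞 K, InRay N x → A (Ideal.span {x}) = 1

/-- the value at the divisor of an ideal -/
theorem AD_ideal {N : ℕ} {A : Ideal (𝓞 K) → G} (hA : RGN N A) :
    ∀ I : Ideal (𝓞 K), I ≠ ⊥ → (IsCoprime I (Ideal.span {(N : 𝓞 K)}) → ∀ d : Dv K,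
      (∀ v, d v = FractionalIdeal.count K v (I : FractionalIdeal (nonZeroDivisors (𝓞 K)) K)) →
      AD N A d = Additive.ofMul (A I)) := by
  classical
  refine ideal_ind ?_ ?_
  · intro _ d hd
    have h0 : d = 0 := by
      ext v
      rw [hd, FractionalIdeal.coeIdeal_top, FractionalIdeal.count_one]
      rfl
    rw [h0, map_zero, hA.one]
    rfl
  · intro v I hI ih hP d hd
    obtain ⟨hv, hI'⟩ := cop_of_mul hP
    have hvb : (N : 𝓞 K) ∉ v.asIdeal := fun h =>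
      not_le_of_cop hv v ((Ideal.span_singleton_le_iff_mem _).2 h) le_rfl
    have h1 := ih hI' (d - Finsupp.single v 1) (fun u => by
      rw [Finsupp.sub_apply, hd, FractionalIdeal.coeIdeal_mul, FractionalIdeal.count_mul K u
        (FractionalIdeal.coeIdeal_ne_zero.2 v.ne_bot) (FractionalIdeal.coeIdeal_ne_zero.2 hI),
        FractionalIdeal.count_maximal, Finsupp.single_apply]
      ring)
    have h3 : AD N A d = AD N A (d - Finsupp.single v 1) + AD N A (Finsupp.single v 1) := by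
      rw [← map_add, sub_add_cancel]
    rw [h3, h1, AD_single hvb, hA.mul _ _ v.ne_bot hI hv hI', mul_comm]
    rfl

/-- the value at a principal divisor -/
theorem AD_prin {N : ℕ} {A : Ideal (𝓞 K) → G} (hA : RGN N A) {y : 𝓞 K}
    (hy : InRay N y) (Y : Kˣ) (hY : (Y : K) = y) : AD N A (prin Y) = 0 := by
  have hI : IsCoprime (Ideal.span {y}) (Ideal.span {(N : 𝓞 K)}) := by
    rw [Ideal.isCoprime_iff_sup_eq, Ideal.eq_top_iff_one]
    have h1 : (1 : 𝓞 K) = y - (y - 1) := by ring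
    rw [h1]
    exact Submodule.sub_mem _ (Ideal.mem_sup_left (Ideal.mem_span_singleton_self y))
      (Ideal.mem_sup_right (Ideal.mem_span_singleton.2 hy.2.1))
  rw [AD_ideal hA (Ideal.span {y}) (by rw [Ne, Ideal.span_singleton_eq_bot]; exact hy.1) hI (prin Y)
    (fun v => by rw [prin_apply, hY, FractionalIdeal.coeIdeal_span_singleton]), hA.ray y hy]
  rfl

/-- an element of the ray is a quotient of integers congruent to `1` -/
theorem exists_den {N : ℕ} (hN : N ≠ 0) {x : K} (hx : Cong N x) : ∃ (z : 𝓞 K) (w : 𝓞 K),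
    z ≠ 0 ∧ z - 1 ∈ Ideal.span {(N : 𝓞 K)} ∧ x * z = w := by
  let J : Ideal (𝓞 K) :=
    { carrier := {z | ∃ w : 𝓞 K, x * z = w}
      add_mem' := by
        rintro a b ⟨w, hw⟩ ⟨w', hw'⟩
        refine ⟨w + w', ?_⟩
        rw [RingOfIntegers.coe_eq_algebraMap, RingOfIntegers.coe_eq_algebraMap, map_add, map_add,
          mul_add]
        exact congrArg₂ (· + ·) hw hw'
      zero_mem' := ⟨0, by
        rw [RingOfIntegers.coe_eq_algebraMap, map_zero, mul_zero]⟩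
      smul_mem' := by
        rintro c a ⟨w, hw⟩
        refine ⟨c * w, ?_⟩
        rw [smul_eq_mul, RingOfIntegers.coe_eq_algebraMap, RingOfIntegers.coe_eq_algebraMap, map_mul,
          map_mul]
        rw [RingOfIntegers.coe_eq_algebraMap, RingOfIntegers.coe_eq_algebraMap] at hw
        rw [← hw]
        ring }
  have hJ : J ⊔ Ideal.span {(N : 𝓞 K)} = ⊤ := by
    by_contra hne
    obtain ⟨M, hM, hIM⟩ := Ideal.exists_le_maximal _ hne
    have hNM : (N : 𝓞 K) ∈ M := hIM (Ideal.mem_sup_right (Ideal.mem_span_singleton_self _))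
    have h0 : M ≠ ⊥ := by
      rintro rfl
      exact hN (Nat.cast_eq_zero.1 ((Submodule.mem_bot _).1 hNM))
    obtain ⟨n, d, hnd⟩ := HeightOneSpectrum.exists_primeCompl_mul_eq_of_integer
      (⟨M, hM.isPrime, h0⟩ : HeightOneSpectrum (𝓞 K)) x
      (val_eq_one (v := ⟨M, hM.isPrime, h0⟩) hNM (hx ⟨M, hM.isPrime, h0⟩ hNM)).le
    exact d.2 (hIM (Ideal.mem_sup_left ⟨n, hnd⟩))
  obtain ⟨a, ⟨w, hw⟩, b, hb, hab⟩ := Submodule.mem_sup.1 (hJ ▸ Submodule.mem_top :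
    (1 : 𝓞 K) ∈ J ⊔ Ideal.span {(N : 𝓞 K)})
  by_cases ha : a = 0
  · -- then `N` is a unit
    obtain ⟨s, c, hc, hsc⟩ := IsFractionRing.div_surjective (A := 𝓞 K) x
    have hc0 : c ≠ 0 := nonZeroDivisors.ne_zero hc
    refine ⟨c, s, hc0, ?_, ?_⟩
    · have h1 : (1 : 𝓞 K) ∈ Ideal.span {(N : 𝓞 K)} := by
        rw [← hab, ha, zero_add]
        exact hb
      rw [(Ideal.eq_top_iff_one _).2 h1]
      exact Submodule.mem_top
    · rw [← hsc, RingOfIntegers.coe_eq_algebraMap, RingOfIntegers.coe_eq_algebraMap]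
      refine div_mul_cancel₀ _ ?_
      rw [Ne, FaithfulSMul.algebraMap_eq_zero_iff]
      exact hc0
  · refine ⟨a, w, ha, ?_, hw⟩
    have h1 : a - 1 = -b := by rw [← hab]; ring
    rw [h1]
    exact Submodule.neg_mem _ hb

/-- the homomorphism kills the ray -/
theorem AD_ray {N : ℕ} (hN : N ≠ 0) {A : Ideal (𝓞 K) → G} (hA : RGN N A) :
    ∀ x ∈ Ray K N, AD N A (prin x) = 0 := by
  rintro x ⟨hx, hpos⟩
  obtain ⟨z, w, hz0, hz1, hzw⟩ := exists_den hN hx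
  have hNK : (N : K) ≠ 0 := Nat.cast_ne_zero.2 hN
  have hzK : (z : K) ≠ 0 := fun h => hz0 (RingOfIntegers.coe_eq_zero_iff.1 h)
  obtain ⟨u, hu⟩ := Ideal.mem_span_singleton'.1 hz1
  have hzzK : ((z * z : 𝓞 K) : K) = (z : K) * z := by
    rw [RingOfIntegers.coe_eq_algebraMap, map_mul]
  -- `z ^ 2`
  have hzz : InRay N (z * z) := by
    refine ⟨mul_ne_zero hz0 hz0, ?_, fun τ => ?_⟩
    · have h1 : z * z - 1 = (z + 1) * (z - 1) := by ring
      rw [h1]
      exact (Ideal.mem_span_singleton.1 hz1).mul_left _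
    · rw [hzzK, map_mul]
      exact mul_self_pos.2 ((map_ne_zero τ).2 hzK)
  -- `y = x z ^ 2`
  have hyK : ((w * z : 𝓞 K) : K) = (x : K) * ((z : K) * z) := by
    rw [RingOfIntegers.coe_eq_algebraMap, map_mul, ← mul_assoc, hzw]
  have hu2 : (z : K) - 1 = (u : K) * (N : ℕ) := by
    have h1 := congrArg (algebraMap (𝓞 K) K) hu
    rw [map_mul, map_sub, map_one, map_natCast] at h1
    exact h1.symm
  have hy1 : (N : 𝓞 K) ∣ w * z - 1 := by
    have h2 : ∀ v : HeightOneSpectrum (𝓞 K),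
        v.valuation K ((((w * z : 𝓞 K) : K) - 1) / (N : K)) ≤ 1 := by
      intro v
      have hv0 : v.valuation K (N : K) ≠ 0 :=
        (Valuation.ne_zero_iff _).2 hNK
      rw [map_div₀]
      refine div_le_one_of_le₀ ?_ zero_le
      by_cases hv : (N : 𝓞 K) ∈ v.asIdeal
      · have h3 : ((w * z : 𝓞 K) : K) - 1 = ((x : K) - 1) * ((z * z : 𝓞 K) : K) +
            ((u * (z + 1) : 𝓞 K) : K) * (N : K) := by
          rw [hyK, hzzK, RingOfIntegers.coe_eq_algebraMap (u * (z + 1)), map_mul, map_add,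
            map_one]
          linear_combination ((z : K) + 1) * hu2
        rw [h3]
        refine (Valuation.map_add _ _ _).trans (max_le ?_ ?_)
        · rw [map_mul]
          exact (mul_le_of_le_one_right' (v.valuation_le_one _)).trans (hx v hv)
        · rw [map_mul]
          exact mul_le_of_le_one_left' (v.valuation_le_one _)
      · have h3 : v.valuation K (N : K) = 1 := by
          have h4 := (v.valuation_eq_one_iff_notMem (K := K)).2 hv
          rwa [map_natCast] at h4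
        rw [h3]
        have h4 : ((w * z : 𝓞 K) : K) - 1 = ((w * z - 1 : 𝓞 K) : K) := by
          rw [RingOfIntegers.coe_eq_algebraMap, RingOfIntegers.coe_eq_algebraMap, map_sub,
            map_one]
        rw [h4]
        exact v.valuation_le_one _
    obtain ⟨t, ht⟩ := HeightOneSpectrum.mem_integers_of_valuation_le_one (R := 𝓞 K) K _ h2
    have h5 : w * z - 1 = t * (N : ℕ) := by
      apply FaithfulSMul.algebraMap_injective (𝓞 K) K
      rw [map_mul, ht, map_natCast, div_mul_cancel₀ _ hNK, map_sub, map_one,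
        RingOfIntegers.coe_eq_algebraMap]
    rw [h5]
    exact Dvd.intro_left t rfl
  have hy : InRay N (w * z) := by
    refine ⟨?_, hy1, fun τ => ?_⟩
    · intro h0
      rw [h0, RingOfIntegers.coe_eq_algebraMap, map_zero] at hyK
      exact mul_ne_zero x.ne_zero (mul_ne_zero hzK hzK) hyK.symm
    · rw [hyK, map_mul, map_mul]
      exact mul_pos (hpos τ) (mul_self_pos.2 ((map_ne_zero τ).2 hzK))
  let Z : Kˣ := Units.mk0 ((z * z : 𝓞 K) : K) (by rw [hzzK]; exact mul_ne_zero hzK hzK)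
  have hxY : x = (x * Z) / Z := by rw [mul_div_cancel_right]
  rw [hxY, prin_div, map_sub, AD_prin hA hzz Z rfl, sub_zero]
  exact AD_prin hA hy (x * Z) (by rw [hyK, Units.val_mul, Units.val_mk0, hzzK])

end divisors

section hecke

variable {F : Type} [Field F] [NumberField F]

/-- divisibility in the ring of all algebraic integers -/
theorem dvd_of_jz (j : F →+* QBar) {n : ℕ} (hn : n ≠ 0) {y : 𝓞 F} (h : (n : ZBar) ∣ jz j y) :
    (n : 𝓞 F) ∣ y := by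
  obtain ⟨z, hz⟩ := h
  have hnF : (n : F) ≠ 0 := Nat.cast_ne_zero.2 hn
  have hnQ : (n : QBar) ≠ 0 := Nat.cast_ne_zero.2 hn
  have h1 : j ((y : F) / n) = (z : QBar) := by
    have h2 : j (y : F) = (n : QBar) * (z : QBar) := by
      have h3 := congrArg (fun t : ZBar => (t : QBar)) hz
      simp only [RingOfIntegers.mapRingHom_apply] at h3
      rw [h3, RingOfIntegers.coe_eq_algebraMap, map_mul, map_natCast]
    rw [map_div₀, map_natCast, h2, mul_div_cancel_left₀ _ hnQ]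
  have h2 : IsIntegral ℤ ((y : F) / n) := by
    have h3 : IsIntegral ℤ (j.toIntAlgHom ((y : F) / n)) := by
      show IsIntegral ℤ (j ((y : F) / n))
      rw [h1]
      exact z.2
    exact (isIntegral_algHom_iff j.toIntAlgHom j.injective).1 h3
  refine ⟨⟨(y : F) / n, h2⟩, ?_⟩
  apply RingOfIntegers.ext
  show (y : F) = ((n : 𝓞 F) : F) * ((y : F) / n)
  rw [RingOfIntegers.coe_eq_algebraMap (n : 𝓞 F), map_natCast, mul_div_cancel₀ _ hnF]

variable {K : Type} [Field K] [NumberField K]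

/-- the values at elements `≡ 1` -/
theorem typ_congr (t : (K →+* QBar) → ℕ) {n N : ℕ} (hn : n ∣ N) {x : 𝓞 K} (hx : InRay N x) :
    (n : ZBar) ∣ (∏ σ, RingOfIntegers.mapRingHom σ x ^ t σ : ZBar) - 1 := by
  rw [← Ideal.mem_span_singleton, ← Ideal.Quotient.mk_eq_mk_iff_sub_mem, map_prod, map_one]
  refine Finset.prod_eq_one fun σ _ => ?_
  have h1 : Ideal.Quotient.mk (Ideal.span {(n : ZBar)}) (RingOfIntegers.mapRingHom σ x) = 1 := by
    rw [← map_one (Ideal.Quotient.mk (Ideal.span {(n : ZBar)})),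
      Ideal.Quotient.mk_eq_mk_iff_sub_mem, Ideal.mem_span_singleton]
    obtain ⟨u, hu⟩ := hx.2.1
    have h2 : (RingOfIntegers.mapRingHom σ x : ZBar) - 1 =
        (N : ZBar) * RingOfIntegers.mapRingHom σ u := by
      rw [← map_one (RingOfIntegers.mapRingHom σ), ← map_sub, hu, map_mul, map_natCast]
    rw [h2]
    exact (Nat.cast_dvd_cast hn).mul_right _
  rw [map_pow, h1, one_pow]

end hecke

section main

variable {K : Type} [Field K] [NumberField K]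

/-- Chebotarev: every coset of an open normal subgroup contains Frobenius elements of infinitely
many places -/
theorem frob_inf (U : Subgroup (GK K)) (hn : U.Normal) (hU : IsOpen (U : Set (GK K))) (g : GK K) :
    PosUD (fun v : HeightOneSpectrum (𝓞 K) => ∃ σ, IsFrob v σ ∧ g⁻¹ * σ ∈ U) := by
  classical
  set C : Set (GK K) := {σ | ∃ τ : GK K, (τ * g * τ⁻¹)⁻¹ * σ ∈ U} with hC
  have h1 := Pool.Agent.W528.Ord.chebK K U hU C
    (by
      rintro σ ⟨τ, hτ⟩ ρ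
      refine ⟨ρ * τ, ?_⟩
      have h2 : (ρ * τ * g * (ρ * τ)⁻¹)⁻¹ * (ρ * σ * ρ⁻¹) = ρ * ((τ * g * τ⁻¹)⁻¹ * σ) * ρ⁻¹ := by group
      rw [h2]
      exact hn.conj_mem _ hτ ρ)
    (by
      rintro σ ⟨τ, hτ⟩ u hu
      refine ⟨τ, ?_⟩
      rw [← mul_assoc]
      exact U.mul_mem hτ hu)
  have hfin : Finite (GK K ⧸ U) := Subgroup.quotient_finite_of_isOpen _ hU
  have hcard : 0 < Nat.card (GK K ⧸ U) := Nat.card_pos
  have himg : 0 < ((QuotientGroup.mk : GK K → GK K ⧸ U) '' C).ncard := by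
    rw [Set.ncard_pos (Set.toFinite _)]
    exact ⟨_, g, ⟨1, by simp⟩, rfl⟩
  have hpos : (0 : ℝ) < (((QuotientGroup.mk : GK K → GK K ⧸ U) '' C).ncard : ℝ) /
      (Nat.card (GK K ⧸ U) : ℝ) := div_pos (by exact_mod_cast himg) (by exact_mod_cast hcard)
  have h2 : PosUD (fun v : HeightOneSpectrum (𝓞 K) => ∃ σ ∈ C, IsFrob v σ) := by
    refine ⟨_, half_pos hpos, Eventually.frequently ?_⟩
    exact (h1.eventually (lt_mem_nhds (half_lt_self hpos))).mono fun N hN => hN.le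
  refine h2.mono ?_
  rintro v ⟨σ, ⟨τ, hτ⟩, hσ⟩
  refine ⟨τ⁻¹ * σ * τ⁻¹⁻¹, (Pool.Agent.W401.Frob.main K).2.2 v σ τ⁻¹ hσ, ?_⟩
  have h3 : g⁻¹ * (τ⁻¹ * σ * τ⁻¹⁻¹) = τ⁻¹ * ((τ * g * τ⁻¹)⁻¹ * σ) * τ⁻¹⁻¹ := by group
  rw [h3]
  exact hn.conj_mem _ hτ τ⁻¹

/-- the same, for places not containing `M` -/
theorem frob_ex (U : Subgroup (GK K)) (hn : U.Normal) (hU : IsOpen (U : Set (GK K))) (g : GK K)
    {M : ℕ} (hM : 0 < M) : ∃ (v : HeightOneSpectrum (𝓞 K)) (σ : GK K), (M : 𝓞 K) ∉ v.asIdeal ∧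
      IsFrob v σ ∧ g⁻¹ * σ ∈ U := by
  have h1 := (frob_inf U hn hU g).infinite
  have h2 : {v : HeightOneSpectrum (𝓞 K) | (M : 𝓞 K) ∈ v.asIdeal}.Finite :=
    Pool.Agent.H500.Kum.fin_mem (E := K) (x := (M : 𝓞 K)) (by exact_mod_cast hM.ne')
  obtain ⟨v, ⟨σ, hσ, hU⟩, hv⟩ := (h1.sdiff h2).nonempty
  exact ⟨v, σ, hv, hσ, hU⟩

end main

/-- **PART B3.** -/
theorem main : Pool.Agent.H500.ED.S_FLB → Pool.Agent.H500.ED.S_VAL → Pool.Agent.H500.ED.S_AVA := by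
  classical
  intro hFLB hVAL K _ _ A B t ψ hA hBA hψ ℓ _ ι
  obtain ⟨F, _, _, j, hj⟩ := hVAL K A B t ψ hA hBA hψ
  choose a ha using hj
  have hℓ : ℓ.Prime := Fact.out
  have amul : ∀ I J : Ideal (𝓞 K), a (I * J) = a I * a J := fun I J =>
    jz_inj j (by rw [ha, map_mul, map_mul, ha, ha])
  have aone : a ⊤ = 1 := jz_inj j (by rw [ha, ← Ideal.one_eq_top, map_one, map_one])
  have apow : ∀ (I : Ideal (𝓞 K)) (n : ℕ), a (I ^ n) = a I ^ n := by
    intro I n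
    induction n with
    | zero => rw [pow_zero, pow_zero, Ideal.one_eq_top, aone]
    | succ n ih => rw [pow_succ, pow_succ, amul, ih]
  -- the values at the elements of the ray
  have aray : ∀ (m : ℕ) (x : 𝓞 K), InRay (A * ℓ ^ m) x → mk ℓ m F (a (Ideal.span {x})) = 1 := by
    intro m x hx
    rw [← map_one (mk ℓ m F), mk_eq]
    have h1 : ((ℓ ^ m : ℕ) : 𝓞 F) ∣ a (Ideal.span {x}) - 1 := by
      refine dvd_of_jz j (pow_ne_zero m hℓ.ne_zero) ?_
      rw [map_sub, ha, map_one, hψ.typ x (InRay.mono (Dvd.intro _ rfl) hx)]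
      exact typ_congr t (Dvd.intro_left _ rfl) hx
    rwa [Nat.cast_pow] at h1
  have hN : ∀ m : ℕ, 0 < A * ℓ ^ m := fun m => Nat.mul_pos hA (pow_pos hℓ.pos m)
  have aunit : ∀ (m : ℕ) (I : Ideal (𝓞 K)), I ≠ ⊥ →
      IsCoprime I (Ideal.span {((A * ℓ ^ m : ℕ) : 𝓞 K)}) → IsUnit (mk ℓ m F (a I)) := by
    intro m I hI hc
    obtain ⟨h, R, hh, _, hR⟩ := Pool.Agent.H199.HC.Cls.main K (A * ℓ ^ m) (hN m)
    obtain ⟨⟨x, hx, hxI⟩, _⟩ := hR I hI hc
    have h1 : (mk ℓ m F (a I)) ^ h = 1 := by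
      rw [← map_pow, ← apow, hxI, aray m x hx]
    exact IsUnit.of_pow_eq_one h1 hh.ne'
  -- the maps to the finite groups
  let Am : ∀ m : ℕ, Ideal (𝓞 K) → (𝓞 F ⧸ Ideal.span {((ℓ : 𝓞 F)) ^ m})ˣ := fun m I =>
    if h : IsUnit (mk ℓ m F (a I)) then h.unit else 1
  have hAm : ∀ (m : ℕ) (I : Ideal (𝓞 K)), IsUnit (mk ℓ m F (a I)) →
      ((Am m I : (𝓞 F ⧸ Ideal.span {((ℓ : 𝓞 F)) ^ m})ˣ) : 𝓞 F ⧸ Ideal.span {((ℓ : 𝓞 F)) ^ m}) =
        mk ℓ m F (a I) := by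
    intro m I h
    simp only [Am]
    rw [dif_pos h, IsUnit.unit_spec]
  have hRGN : ∀ m : ℕ, RGN (A * ℓ ^ m) (Am m) := by
    intro m
    refine ⟨?_, ?_, ?_⟩
    · apply Units.ext
      rw [hAm m ⊤ (by rw [aone, map_one]; exact isUnit_one), aone, map_one, Units.val_one]
    · intro I J hI hJ hcI hcJ
      apply Units.ext
      have h1 := aunit m I hI hcI
      have h2 := aunit m J hJ hcJ
      rw [Units.val_mul, hAm m I h1, hAm m J h2, hAm m (I * J) (by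
        rw [amul, map_mul]; exact h1.mul h2), amul, map_mul]
    · intro x hx
      apply Units.ext
      rw [hAm m _ (by rw [aray m x hx]; exact isUnit_one), aray m x hx, Units.val_one]
  have hfin : ∀ m : ℕ, Finite (𝓞 F ⧸ Ideal.span {((ℓ : 𝓞 F)) ^ m}) := by
    intro m
    apply Ideal.finiteQuotientOfFreeOfNeBot
    rw [Ne, Ideal.span_singleton_eq_bot]
    exact pow_ne_zero m (Nat.cast_ne_zero.2 hℓ.ne_zero)
  have hΘ : ∀ m : ℕ, ∃ Θ : GK K →* (𝓞 F ⧸ Ideal.span {((ℓ : 𝓞 F)) ^ m})ˣ,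
      IsOpen (Θ.ker : Set (GK K)) ∧ UnrOut (A * ℓ ^ m) Θ.ker ∧
      ∀ v : HeightOneSpectrum (𝓞 K), ((A * ℓ ^ m : ℕ) : 𝓞 K) ∉ v.asIdeal → ∀ s, IsFrob v s →
        ((Θ s : (𝓞 F ⧸ Ideal.span {((ℓ : 𝓞 F)) ^ m})ˣ) : 𝓞 F ⧸ Ideal.span {((ℓ : 𝓞 F)) ^ m}) =
          mk ℓ m F (a v.asIdeal) := by
    intro m
    have := hfin m
    have : Finite (𝓞 F ⧸ Ideal.span {((ℓ : 𝓞 F)) ^ m})ˣ := inferInstance
    obtain ⟨Θ, h1, h2, h3⟩ := hFLB K (A * ℓ ^ m) (hN m) (𝓞 F ⧸ Ideal.span {((ℓ : 𝓞 F)) ^ m})ˣ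
      (AD (A * ℓ ^ m) (Am m)) (AD_ray (hN m).ne' (hRGN m))
    refine ⟨Θ, h1, h2, fun v hv s hs => ?_⟩
    have h4 := h3 v hv s hs
    rw [AD_single hv] at h4
    have h5 : Θ s = Am m v.asIdeal := Additive.ofMul.injective h4
    rw [h5]
    refine hAm m _ (aunit m _ v.ne_bot (cop_of_not_le v fun h => hv ?_))
    exact (Ideal.span_singleton_le_iff_mem _).1 h
  choose Θ hopen hunr hfrob using hΘ
  have hout : ∀ (m : ℕ) (v : HeightOneSpectrum (𝓞 K)), (A : 𝓞 K) ∉ v.asIdeal →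
      (ℓ : 𝓞 K) ∉ v.asIdeal → ((A * ℓ ^ m : ℕ) : 𝓞 K) ∉ v.asIdeal := by
    intro m v h1 h2 h3
    rw [Nat.cast_mul, Nat.cast_pow] at h3
    rcases v.isPrime.mem_or_mem h3 with h | h
    · exact h1 h
    · exact h2 (v.isPrime.mem_of_pow_mem _ h)
  obtain ⟨Ψ, hΨc, hΨ⟩ := limit (ι.comp j) Θ hopen (by
    intro g m m' hm b hb
    obtain ⟨v, σ, hv, hσ, hU⟩ := frob_ex ((Θ m).ker ⊓ (Θ m').ker) inferInstance
      ((hopen m).inter (hopen m')) g (Nat.mul_pos hA hℓ.pos)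
    have hvA : (A : 𝓞 K) ∉ v.asIdeal := fun h => hv (by
      rw [Nat.cast_mul]
      exact v.asIdeal.mul_mem_right _ h)
    have hvℓ : (ℓ : 𝓞 K) ∉ v.asIdeal := fun h => hv (by
      rw [Nat.cast_mul]
      exact v.asIdeal.mul_mem_left _ h)
    have h1 : Θ m g = Θ m σ := by
      have h3 : Θ m (g⁻¹ * σ) = 1 := hU.1
      rwa [map_mul, map_inv, inv_mul_eq_one] at h3
    have h2 : Θ m' g = Θ m' σ := by
      have h3 : Θ m' (g⁻¹ * σ) = 1 := hU.2
      rwa [map_mul, map_inv, inv_mul_eq_one] at h3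
    rw [h2, hfrob m' v (hout m' v hvA hvℓ) σ hσ, mk_eq] at hb
    rw [h1, hfrob m v (hout m v hvA hvℓ) σ hσ, mk_eq]
    exact (pow_dvd_pow _ hm).trans hb)
  refine ⟨Ψ, hΨc, fun v hvA hvℓ => ⟨fun τ hτ => ?_, fun s hs => ?_⟩⟩
  · apply Units.ext
    rw [hΨ τ 1 fun m => ?_, RingOfIntegers.coe_eq_algebraMap, map_one, map_one, Units.val_one]
    have h1 : Θ m τ = 1 := hunr m v (hout m v hvA hvℓ) τ hτ
    rw [h1, map_one, Units.val_one]
  · rw [hΨ s (a v.asIdeal) fun m => (hfrob m v (hout m v hvA hvℓ) s hs).symm, ← ha]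
    rfl

end

end Pool.Agent.H399.ED.AVA
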